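import Pool.Agent.Q14.DP.Search

/-!
Depth in Coxeter groups: an element of the finite Coxeter group of type `H₄` whose depth is not
realized by a reduced factorization into reflections.
-/

namespace Pool.Agent.Results.MP_c1e3ac_co.H4Counterexample

open CoxeterSystem Q14.DP

section Definitions

variable {B W : Type*} [Group W] {M : CoxeterMatrix B} (cs : CoxeterSystem M W)

/-- `l = [t₁, …, t_r]` is a factorization `w = t₁ ⋯ t_r` of `w` into reflections. -/
def IsRefFact (w : W) (l : List W) : Prop := (∀ t ∈ l, cs.IsReflection t) ∧ l.prod = w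

/-- The sum `∑ (1 + ℓ(t_i)) / 2` of the depths of the factors. -/
noncomputable def cost (l : List W) : ℚ := (l.map fun t => (1 + (cs.length t : ℚ)) / 2).sum

/-- A reduced factorization: a factorization into reflections with `ℓ(w) = ∑ ℓ(t_i)`. -/
def IsReducedFact (w : W) (l : List W) : Prop :=
  IsRefFact cs w l ∧ cs.length w = (l.map cs.length).sum

/-- A factorization realizes the depth: its cost is minimal among all factorizations of `w`
into reflections. -/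
def RealizesDepth (w : W) (l : List W) : Prop :=
  IsRefFact cs w l ∧ ∀ l' : List W, IsRefFact cs w l' → cost cs l ≤ cost cs l'

end Definitions

theorem cost_eq {B W : Type*} [Group W] {M : CoxeterMatrix B} (cs : CoxeterSystem M W)
    (l : List W) : cost cs l = ((l.length + (l.map cs.length).sum : ℕ) : ℚ) / 2 := by
  induction l with
  | nil => simp [cost]
  | cons t l ih =>
    unfold cost at ih ⊢
    rw [List.map_cons, List.sum_cons, ih, List.map_cons, List.sum_cons, List.length_cons]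
    push_cast
    ring

section H4

variable {W : Type*} [Group W] (cs : CoxeterSystem CoxeterMatrix.H₄ W)

theorem mv1 : cs.wordProd [2, 1, 0, 3, 2, 1, 3, 2, 3, 1, 2, 3, 0, 1, 2, 0, 1, 3, 2, 3, 2, 3, 1, 0] =
    cs.wordProd [2, 1, 0, 3, 2, 1, 3, 2, 3, 1, 2, 3, 0, 1, 0, 2, 1, 3, 2, 3, 2, 3, 1, 0] :=
  braid cs [2, 1, 0, 3, 2, 1, 3, 2, 3, 1, 2, 3, 0, 1] [1, 3, 2, 3, 2, 3, 1, 0] 2 0

theorem mv2 : cs.wordProd [2, 1, 0, 3, 2, 1, 3, 2, 3, 1, 2, 3, 0, 1, 0, 2, 1, 3, 2, 3, 2, 3, 1, 0] =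
    cs.wordProd [2, 1, 0, 3, 2, 1, 3, 2, 3, 1, 2, 3, 1, 0, 1, 2, 1, 3, 2, 3, 2, 3, 1, 0] :=
  braid cs [2, 1, 0, 3, 2, 1, 3, 2, 3, 1, 2, 3] [2, 1, 3, 2, 3, 2, 3, 1, 0] 1 0

theorem mv3 : cs.wordProd [2, 1, 0, 3, 2, 1, 3, 2, 3, 1, 2, 3, 1, 0, 1, 2, 1, 3, 2, 3, 2, 3, 1, 0] =
    cs.wordProd [2, 1, 0, 3, 2, 1, 3, 2, 3, 1, 2, 3, 1, 0, 2, 1, 2, 3, 2, 3, 2, 3, 1, 0] :=
  braid cs [2, 1, 0, 3, 2, 1, 3, 2, 3, 1, 2, 3, 1, 0] [3, 2, 3, 2, 3, 1, 0] 2 1

theorem mv4 : cs.wordProd [2, 1, 0, 3, 2, 1, 3, 2, 3, 1, 2, 3, 1, 0, 2, 1, 2, 3, 2, 3, 2, 3, 1, 0] =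
    cs.wordProd [2, 1, 0, 3, 2, 1, 3, 2, 3, 1, 2, 3, 1, 0, 2, 1, 3, 2, 3, 2, 3, 3, 1, 0] :=
  braid cs [2, 1, 0, 3, 2, 1, 3, 2, 3, 1, 2, 3, 1, 0, 2, 1] [3, 1, 0] 3 2

theorem mv5 : cs.wordProd [2, 1, 0, 3, 2, 1, 3, 2, 3, 1, 2, 3, 1, 0, 2, 1, 3, 2, 3, 2, 3, 3, 1, 0] =
    cs.wordProd [2, 1, 0, 3, 2, 1, 3, 2, 3, 1, 2, 3, 1, 0, 2, 1, 3, 2, 3, 2, 1, 0] :=
  delete cs [2, 1, 0, 3, 2, 1, 3, 2, 3, 1, 2, 3, 1, 0, 2, 1, 3, 2, 3, 2] [1, 0] 3

theorem mv6 : cs.wordProd [2, 1, 0, 3, 2, 1, 3, 2, 3, 1, 2, 3, 1, 0, 2, 1, 3, 2, 3, 2, 1, 0] =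
    cs.wordProd [2, 1, 0, 3, 2, 1, 3, 2, 3, 1, 2, 3, 1, 2, 0, 1, 3, 2, 3, 2, 1, 0] :=
  braid cs [2, 1, 0, 3, 2, 1, 3, 2, 3, 1, 2, 3, 1] [1, 3, 2, 3, 2, 1, 0] 0 2

theorem mv7 : cs.wordProd [2, 1, 0, 3, 2, 1, 3, 2, 3, 1, 2, 3, 1, 2, 0, 1, 3, 2, 3, 2, 1, 0] =
    cs.wordProd [2, 1, 0, 3, 2, 1, 3, 2, 3, 1, 2, 3, 1, 2, 0, 3, 1, 2, 3, 2, 1, 0] :=
  braid cs [2, 1, 0, 3, 2, 1, 3, 2, 3, 1, 2, 3, 1, 2, 0] [2, 3, 2, 1, 0] 1 3

theorem mv8 : cs.wordProd [2, 1, 0, 3, 2, 1, 3, 2, 3, 1, 2, 3, 1, 2, 0, 3, 1, 2, 3, 2, 1, 0] =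
    cs.wordProd [2, 1, 0, 3, 2, 1, 3, 2, 3, 1, 2, 3, 1, 2, 3, 0, 1, 2, 3, 2, 1, 0] :=
  braid cs [2, 1, 0, 3, 2, 1, 3, 2, 3, 1, 2, 3, 1, 2] [1, 2, 3, 2, 1, 0] 0 3

/-- the first factor, of length 15 -/
def w1 : List (Fin 4) := [2, 1, 0, 3, 2, 1, 3, 2, 3, 1, 2, 3, 0, 1, 2]

/-- the second factor, of length 9 -/
def w2 : List (Fin 4) := [0, 1, 3, 2, 3, 2, 3, 1, 0]

theorem two_factors : cs.wordProd w1 * cs.wordProd w2 = elt cs := by
  rw [← wordProd_append]
  exact (mv1 cs).trans ((mv2 cs).trans ((mv3 cs).trans ((mv4 cs).trans ((mv5 cs).trans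
    ((mv6 cs).trans ((mv7 cs).trans (mv8 cs)))))))

theorem pal (ω : List (Fin 4)) (i : Fin 4) :
    cs.IsReflection (cs.wordProd (ω ++ (i :: ω.reverse))) := by
  rw [wordProd_append, wordProd_cons, wordProd_reverse, ← mul_assoc]
  exact ⟨_, i, rfl⟩

theorem refl_w1 : cs.IsReflection (cs.wordProd w1) := pal cs [2, 1, 0, 3, 2, 1, 3] 2

theorem refl_w2 : cs.IsReflection (cs.wordProd w2) := pal cs [0, 1, 3, 2] 3

theorem fact_two : IsRefFact cs (elt cs) [cs.wordProd w1, cs.wordProd w2] := by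
  refine ⟨?_, ?_⟩
  · intro t ht
    simp only [List.mem_cons, List.not_mem_nil, or_false] at ht
    rcases ht with rfl | rfl
    · exact refl_w1 cs
    · exact refl_w2 cs
  · simp only [List.prod_cons, List.prod_nil, mul_one]
    exact two_factors cs

/-- the eight factors of a reduced factorization -/
def blocks : List (List (Fin 4)) :=
  [[2], [1], [0], [3, 2, 1, 3, 2, 3, 1, 2, 3], [1], [2], [3], [0, 1, 2, 3, 2, 1, 0]]

theorem fact_eight : IsRefFact cs (elt cs) (blocks.map cs.wordProd) := by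
  refine ⟨?_, ?_⟩
  · intro t ht
    simp only [blocks, List.map_cons, List.map_nil, List.mem_cons, List.not_mem_nil,
      or_false] at ht
    rcases ht with rfl | rfl | rfl | rfl | rfl | rfl | rfl | rfl
    · exact pal cs [] 2
    · exact pal cs [] 1
    · exact pal cs [] 0
    · exact pal cs [3, 2, 1, 3] 2
    · exact pal cs [] 1
    · exact pal cs [] 2
    · exact pal cs [] 3
    · exact pal cs [0, 1, 2] 3
  · simp only [blocks, List.map_cons, List.map_nil, List.prod_cons, List.prod_nil, mul_one,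
      ← wordProd_append]
    rfl

theorem cost_ge13 (l : List W) (h : IsRefFact cs (elt cs) l) : 13 ≤ cost cs l := by
  rw [cost_eq]
  have := cost_ge cs l h.1 h.2
  have h2 : (26 : ℚ) ≤ ((l.length + (l.map cs.length).sum : ℕ) : ℚ) := by exact_mod_cast this
  linarith

theorem cost_ge15 (l : List W) (h : IsReducedFact cs (elt cs) l) : 15 ≤ cost cs l := by
  rw [cost_eq]
  have h22 := h.2
  rw [elt_length] at h22
  have := eight_le cs l h.1.1 h.1.2 h22.symm
  have h2 : (30 : ℚ) ≤ ((l.length + (l.map cs.length).sum : ℕ) : ℚ) := by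
    exact_mod_cast (by omega : 30 ≤ l.length + (l.map cs.length).sum)
  linarith

theorem cost_two : cost cs [cs.wordProd w1, cs.wordProd w2] = 13 := by
  apply le_antisymm
  · rw [cost_eq]
    have h1 := cs.length_wordProd_le w1
    have h2 := cs.length_wordProd_le w2
    have e1 : w1.length = 15 := rfl
    have e2 : w2.length = 9 := rfl
    rw [e1] at h1
    rw [e2] at h2
    simp only [List.length_cons, List.length_nil, List.map_cons, List.map_nil, List.sum_cons,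
      List.sum_nil]
    have h3 : ((0 + 1 + 1 + (cs.length (cs.wordProd w1) + (cs.length (cs.wordProd w2) + 0)) : ℕ) :
        ℚ) ≤ 26 := by
      exact_mod_cast (by omega :
        0 + 1 + 1 + (cs.length (cs.wordProd w1) + (cs.length (cs.wordProd w2) + 0)) ≤ 26)
    linarith
  · exact cost_ge13 cs _ (fact_two cs)

theorem sum_blocks : ∀ L : List (List (Fin 4)),
    ((L.map cs.wordProd).map cs.length).sum ≤ (L.map List.length).sum := by
  intro L
  induction L with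
  | nil => simp
  | cons ω L ih =>
    simp only [List.map_cons, List.sum_cons]
    have := cs.length_wordProd_le ω
    omega

theorem reduced_eight : IsReducedFact cs (elt cs) (blocks.map cs.wordProd) := by
  refine ⟨fact_eight cs, ?_⟩
  apply le_antisymm
  · have := length_prod_le cs (blocks.map cs.wordProd)
    rwa [(fact_eight cs).2] at this
  · rw [elt_length]
    exact sum_blocks cs blocks

theorem cost_eight : cost cs (blocks.map cs.wordProd) = 15 := by
  rw [cost_eq, ← (reduced_eight cs).2, elt_length]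
  have : (blocks.map cs.wordProd).length = 8 := by simp [blocks]
  rw [this]
  norm_num

theorem main : cs.length (elt cs) = 22 ∧
    IsLeast {c : ℚ | ∃ l, IsRefFact cs (elt cs) l ∧ c = cost cs l} 13 ∧
    IsLeast {c : ℚ | ∃ l, IsReducedFact cs (elt cs) l ∧ c = cost cs l} 15 := by
  refine ⟨elt_length cs, ⟨⟨_, fact_two cs, (cost_two cs).symm⟩, ?_⟩,
    ⟨_, reduced_eight cs, (cost_eight cs).symm⟩, ?_⟩
  · rintro c ⟨l, hl, rfl⟩
    exact cost_ge13 cs l hl
  · rintro c ⟨l, hl, rfl⟩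
    exact cost_ge15 cs l hl

end H4

/-- In every Coxeter system of type `H₄` there is an element `w` of length `22` and depth `13`
all of whose reduced factorizations into reflections cost at least `15` (and `15` is attained);
so it is not true that in every Coxeter system the depth of every element is realized by a reduced
factorization. -/
theorem result :
    (∀ (W : Type) [Group W] (cs : CoxeterSystem CoxeterMatrix.H₄ W), ∃ w : W,
      cs.length w = 22 ∧
      IsLeast {c : ℚ | ∃ l, IsRefFact cs w l ∧ c = cost cs l} 13 ∧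
      IsLeast {c : ℚ | ∃ l, IsReducedFact cs w l ∧ c = cost cs l} 15) ∧
    ¬ ∀ (B W : Type) [Group W] (M : CoxeterMatrix B) (cs : CoxeterSystem M W) (w : W),
      ∃ l : List W, IsReducedFact cs w l ∧ RealizesDepth cs w l := by
  refine ⟨fun W _ cs => ⟨elt cs, main cs⟩, fun h => ?_⟩
  obtain ⟨l, hl, hr⟩ := h (Fin 4) CoxeterMatrix.H₄.Group CoxeterMatrix.H₄
    CoxeterMatrix.H₄.toCoxeterSystem (elt CoxeterMatrix.H₄.toCoxeterSystem)
  have h1 := cost_ge15 _ l hl
  have h2 := hr.2 _ (fact_two CoxeterMatrix.H₄.toCoxeterSystem)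
  rw [cost_two] at h2
  linarith

end Pool.Agent.Results.MP_c1e3ac_co.H4Counterexample
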